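import Pool.Agent.Helper91.GU.StB

/-!
# Project GU: module B1 (lemma H1)
-/

set_option autoImplicit false

namespace Pool.Agent.Helper82.GU

open Polynomial
open Matrix hiding row
open Pool.Agent.Helper91.GU

universe u

section Basic

variable {A : Type u} [CommRing A] {r : ℕ}

omit [CommRing A] in
lemma row_ext {a a' : A} {c c' : Fin r → A} (h : a = a') (h' : c = c') : row a c = row a' c' := by
  rw [h, h']

lemma mp_row {B : Type u} [CommRing B] (φ : A →+* B) (a : A) (c : Fin r → A) :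
    mp φ (row a c) = row (φ a) (mp φ c) := by
  funext j
  rcases j with j | j <;> rfl

lemma C_row {B : Type u} [CommRing B] (φ : A →+* B) (a : A) (c : Fin r → A) :
    (fun j => C (φ (row a c j))) = row (C (φ a)) (fun j => C (φ (c j))) := by
  funext j
  rcases j with j | j <;> rfl

lemma row_fromBlocks (a : A) (c : Fin r → A) (P : Matrix Unit Unit A) (Q : Matrix Unit (Fin r) A)
    (R : Matrix (Fin r) Unit A) (S : Matrix (Fin r) (Fin r) A) :
    vecMul (row a c) (fromBlocks P Q R S) =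
      row (a * P () () + c ⬝ᵥ (fun i => R i ())) ((fun j => a * Q () j) + vecMul c S) := by
  funext j
  rcases j with j | j
  · cases j
    simp [row, vecMul, dotProduct]
  · simp [row, vecMul, dotProduct]

lemma row_lowU (a : A) (c y : Fin r → A) :
    vecMul (row a c) (lowU y) = row (a - c ⬝ᵥ y) c := by
  rw [lowU, row_fromBlocks]
  refine row_ext ?_ ?_
  · simp [dotProduct, sub_eq_add_neg]
  · funext j
    simp

lemma row_upV (a : A) (c x : Fin r → A) :
    vecMul (row a c) (upV x) = row a (c - a • x) := by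
  rw [upV, row_fromBlocks]
  refine row_ext ?_ ?_
  · simp [dotProduct]
  · funext j
    simp [sub_eq_add_neg, add_comm]

lemma row_diag (a : A) (c : Fin r → A) (e : Matrix (Fin r) (Fin r) A) :
    vecMul (row a c) (fromBlocks 1 0 0 e) = row a (vecMul c e) := by
  rw [row_fromBlocks]
  refine row_ext ?_ ?_
  · simp [dotProduct]
  · funext j
    simp

lemma lowU_mul (y y' : Fin r → A) : lowU y * lowU y' = lowU (y + y') := by
  rw [lowU, lowU, lowU, fromBlocks_multiply]
  congr 1
  · simp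
  · simp
  · ext i j
    simp [add_comm]
  · simp

lemma upV_mul (x x' : Fin r → A) : upV x * upV x' = upV (x + x') := by
  rw [upV, upV, upV, fromBlocks_multiply]
  congr 1
  · simp
  · ext i j
    simp [add_comm]
  · simp
  · simp

lemma lowU_zero : lowU (0 : Fin r → A) = 1 := by
  rw [lowU, ← fromBlocks_one]
  congr 1
  ext i j
  simp

lemma upV_zero : upV (0 : Fin r → A) = 1 := by
  rw [upV, ← fromBlocks_one]
  congr 1
  ext i j
  simp

lemma det_lowU (y : Fin r → A) : (lowU y).det = 1 := by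
  rw [lowU, det_fromBlocks_zero₁₂]
  simp

lemma det_upV (x : Fin r → A) : (upV x).det = 1 := by
  rw [upV, det_fromBlocks_zero₂₁]
  simp

lemma lowU_diag (y : Fin r → A) (e e' : Matrix (Fin r) (Fin r) A) (he : e * e' = 1) :
    lowU y * fromBlocks 1 0 0 e = fromBlocks 1 0 0 e * lowU (mulVec e' y) := by
  rw [lowU, lowU, fromBlocks_multiply, fromBlocks_multiply]
  congr 1
  · simp
  · simp
  · have h : mulVec e (mulVec e' y) = y := by
      rw [mulVec_mulVec, he, one_mulVec]
    ext i j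
    have h' := congrFun h i
    simp only [mulVec, dotProduct] at h'
    simp [Matrix.mul_apply, mulVec, dotProduct, h']
  · simp

lemma upV_diag (c : Fin r → A) (e : Matrix (Fin r) (Fin r) A) :
    upV c * fromBlocks 1 0 0 e = fromBlocks 1 0 0 e * upV (vecMul c e) := by
  rw [upV, upV, fromBlocks_multiply, fromBlocks_multiply]
  congr 1
  · simp
  · ext i j
    simp [Matrix.mul_apply, vecMul, dotProduct]
  · simp
  · simp

lemma vecMulVec_mul_self (a c : Fin r → A) (h : c ⬝ᵥ a = 0) :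
    vecMulVec a c * vecMulVec a c = 0 := by
  rw [vecMulVec_mul_vecMulVec]
  simp [h]

/-- the middle block -/
def mid (a c : Fin r → A) : Matrix (Unit ⊕ Fin r) (Unit ⊕ Fin r) A :=
  fromBlocks 1 0 (fun i _ => a i) (1 - vecMulVec a c)

lemma mid_conj (a c : Fin r → A) (h : c ⬝ᵥ a = 0) :
    upV c * mid a c = lowU (-a) * upV c := by
  rw [upV, lowU, mid, fromBlocks_multiply, fromBlocks_multiply]
  congr 1
  · ext i j
    simp only [dotProduct] at h
    simp [Matrix.mul_apply, h]
  · ext i j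
    simp only [dotProduct] at h
    simp only [Matrix.add_apply, Matrix.mul_apply, Matrix.sub_apply, mul_sub,
      Finset.sum_sub_distrib, vecMulVec_apply, ← mul_assoc, ← Finset.sum_mul, h,
      neg_mul, Finset.sum_neg_distrib]
    simp [Matrix.one_apply]
  · simp
  · ext i j
    simp [Matrix.mul_apply, vecMulVec_apply, Matrix.one_apply, sub_eq_neg_add]

lemma det_mid (a c : Fin r → A) (h : c ⬝ᵥ a = 0) : IsUnit (mid a c).det := by
  rw [mid, det_fromBlocks_zero₁₂]
  simp only [det_one, one_mul]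
  apply isUnit_det_of_right_inverse (B := 1 + vecMulVec a c)
  rw [sub_mul, mul_add, mul_add, vecMulVec_mul_self a c h]
  simp

lemma map_lowU {B : Type u} [CommRing B] (φ : A →+* B) (y : Fin r → A) :
    (lowU y).map φ = lowU (mp φ y) := by
  rw [lowU, lowU, fromBlocks_map]
  congr 1
  · ext i j
    simp
  · ext i j
    simp
  · ext i j
    simp [mp]
  · ext i j
    by_cases hij : i = j <;> simp [Matrix.one_apply, hij]

lemma map_upV {B : Type u} [CommRing B] (φ : A →+* B) (x : Fin r → A) :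
    (upV x).map φ = upV (mp φ x) := by
  rw [upV, upV, fromBlocks_map]
  congr 1
  · ext i j
    simp
  · ext i j
    simp [mp]
  · ext i j
    simp
  · ext i j
    by_cases hij : i = j <;> simp [Matrix.one_apply, hij]

lemma map_diag {B : Type u} [CommRing B] (φ : A →+* B) (e : Matrix (Fin r) (Fin r) A) :
    (fromBlocks (1 : Matrix Unit Unit A) 0 0 e).map φ = fromBlocks 1 0 0 (e.map φ) := by
  rw [fromBlocks_map]
  congr 1
  · ext i j
    simp
  · ext i j
    simp
  · ext i j
    simp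

lemma map_mid {B : Type u} [CommRing B] (φ : A →+* B) (a c : Fin r → A) :
    (mid a c).map φ = mid (mp φ a) (mp φ c) := by
  rw [mid, mid, fromBlocks_map]
  congr 1
  · ext i j
    simp
  · ext i j
    simp
  · ext i j
    by_cases hij : i = j <;> simp [vecMulVec_apply, hij, mp]

lemma mid_zero (c : Fin r → A) : mid 0 c = 1 := by
  rw [mid, ← fromBlocks_one]
  congr 1
  ext i j
  simp

lemma mp_dot {B : Type u} [CommRing B] (φ : A →+* B) (a c : Fin r → A) :
    mp φ a ⬝ᵥ mp φ c = φ (a ⬝ᵥ c) := by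
  simp [mp, dotProduct]

lemma mem_idl {c : Fin r → A} {x : A} (h : x ∈ idl c) : ∃ y : Fin r → A, c ⬝ᵥ y = x := by
  rw [idl, Ideal.mem_span_range_iff_exists_fun] at h
  obtain ⟨y, hy⟩ := h
  exact ⟨y, by rw [← hy, dotProduct]; exact Finset.sum_congr rfl fun i _ => mul_comm _ _⟩

lemma mp_vecMul {B : Type u} [CommRing B] {n : Type} [Fintype n] (φ : A →+* B) (c : n → A)
    (e : Matrix n n A) : mp φ (vecMul c e) = vecMul (mp φ c) (e.map φ) := by
  funext j
  simp [mp, vecMul, dotProduct]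

end Basic

theorem hB1 (hA0 : StA0.{u}) (hA4 : StA4.{u}) (hB0 : StB0.{u}) : StB1.{u} := by
  intro A _ f i hfi r v₀ w₀ c c' hv hw he hwv
  obtain ⟨Afi, _, _, _, _, hsq⟩ := hA0 A f i hfi
  obtain ⟨e, ⟨P, hPdet, hP0, hP1⟩, hec⟩ := he
  obtain ⟨y, hy⟩ := mem_idl hv
  obtain ⟨y', hy'⟩ := mem_idl hw
  obtain ⟨q, hq⟩ := mem_idl hwv
  have hedet : IsUnit e.det := by
    rw [← hP1]
    have h1 : (P.map (eval 1)).det = (evalRingHom (1 : Localization.Away f)) P.det := by
      rw [RingHom.map_det]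
      rfl
    rw [h1]
    exact hPdet.map _
  have hee : e * e⁻¹ = 1 := mul_nonsing_inv e hedet
  -- the ring maps
  have towf := hsq.towf
  have towi := hsq.towi
  -- the images in `Afi`
  obtain ⟨φ, hφ⟩ : ∃ φ : Localization.Away f →+* Afi, φ = algebraMap (Localization.Away f) Afi :=
    ⟨_, rfl⟩
  obtain ⟨ψ, hψ⟩ : ∃ ψ : Localization.Away i →+* Afi, ψ = algebraMap (Localization.Away i) Afi :=
    ⟨_, rfl⟩
  have hφA : ∀ x : A, φ (algebraMap A (Localization.Away f) x) = algebraMap A Afi x := by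
    intro x
    rw [hφ, ← IsScalarTower.algebraMap_apply]
  have hψA : ∀ x : A, ψ (algebraMap A (Localization.Away i) x) = algebraMap A Afi x := by
    intro x
    rw [hψ, ← IsScalarTower.algebraMap_apply]
  have hφmp : ∀ d : Fin r → A, mp φ (mp (algebraMap A (Localization.Away f)) d) =
      mp (algebraMap A Afi) d := fun d => funext fun j => hφA _
  have hψmp : ∀ d : Fin r → A, mp ψ (mp (algebraMap A (Localization.Away i)) d) =
      mp (algebraMap A Afi) d := fun d => funext fun j => hψA _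
  obtain ⟨cc, hcc⟩ : ∃ cc : Fin r → Afi, cc = mp (algebraMap A Afi) c := ⟨_, rfl⟩
  obtain ⟨cc', hcc'⟩ : ∃ cc' : Fin r → Afi, cc' = mp (algebraMap A Afi) c' := ⟨_, rfl⟩
  obtain ⟨E, hE⟩ : ∃ E : Matrix (Fin r) (Fin r) Afi, E = e.map φ := ⟨_, rfl⟩
  obtain ⟨E', hE'⟩ : ∃ E' : Matrix (Fin r) (Fin r) Afi, E' = (e⁻¹).map φ := ⟨_, rfl⟩
  have hEE : E * E' = 1 := by
    rw [hE, hE', ← Matrix.map_mul, hee]
    ext a b
    by_cases hab : a = b <;> simp [Matrix.one_apply, hab]
  have hEc : vecMul cc E = cc' := by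
    rw [hcc, hcc', hE, ← hφmp, ← mp_vecMul, hec, hφmp]
  obtain ⟨Y, hY⟩ : ∃ Y : Fin r → Afi, Y = mp ψ y := ⟨_, rfl⟩
  obtain ⟨Y', hY'⟩ : ∃ Y' : Fin r → Afi, Y' = mp ψ y' := ⟨_, rfl⟩
  obtain ⟨Q, hQ⟩ : ∃ Q : Fin r → Afi, Q = mp φ q := ⟨_, rfl⟩
  obtain ⟨V₀, hV₀⟩ : ∃ V₀ : Afi, V₀ = algebraMap A Afi v₀ := ⟨_, rfl⟩
  obtain ⟨W₀, hW₀⟩ : ∃ W₀ : Afi, W₀ = algebraMap A Afi w₀ := ⟨_, rfl⟩
  have h1 : cc ⬝ᵥ Y = V₀ - 1 := by
    rw [hcc, hY, ← hψmp, mp_dot, hy, map_sub, hψA, map_one, hV₀]
  have h2 : cc' ⬝ᵥ Y' = W₀ - 1 := by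
    rw [hcc', hY', ← hψmp, mp_dot, hy', map_sub, hψA, map_one, hW₀]
  have h3 : cc' ⬝ᵥ Q = W₀ - V₀ := by
    rw [hcc', hQ, ← hφmp, mp_dot, hq, map_sub, hφA, hφA, hW₀, hV₀]
  obtain ⟨a, ha⟩ : ∃ a : Fin r → Afi, a = mulVec E' Y + Q - Y' := ⟨_, rfl⟩
  have h4 : cc' ⬝ᵥ a = 0 := by
    rw [ha, dotProduct_sub, dotProduct_add, h2, h3, ← hEc, dotProduct_mulVec, vecMul_vecMul, hEE,
      vecMul_one, h1]
    ring
  -- the path
  obtain ⟨κ, hκ⟩ : ∃ κ : Localization.Away f →+* Afi, κ = φ := ⟨_, rfl⟩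
  obtain ⟨PP, hPP⟩ : ∃ PP : Matrix (Fin r) (Fin r) Afi[X], PP = P.map (Polynomial.mapRingHom φ) :=
    ⟨_, rfl⟩
  have hPPdet : IsUnit PP.det := by
    rw [hPP]
    have h : (P.map (Polynomial.mapRingHom φ)).det = (Polynomial.mapRingHom φ) P.det := by
      rw [RingHom.map_det]
      rfl
    rw [h]
    exact hPdet.map _
  have hPP0 : PP.map (evalRingHom 0) = 1 := by
    rw [hPP]
    ext a b
    have h := congrFun (congrFun hP0 a) b
    simp only [Matrix.map_apply] at h
    simp only [Matrix.map_apply, coe_mapRingHom, coe_evalRingHom]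
    rw [← φ.map_zero, eval_map_apply, h]
    by_cases hab : a = b <;> simp [Matrix.one_apply, hab]
  have hPP1 : PP.map (evalRingHom 1) = E := by
    rw [hPP, hE]
    ext a b
    have h := congrFun (congrFun hP1 a) b
    simp only [Matrix.map_apply] at h
    simp only [Matrix.map_apply, coe_mapRingHom, coe_evalRingHom]
    rw [← φ.map_one, eval_map_apply, h]
  obtain ⟨τ, hτ⟩ : ∃ τ : Matrix (Unit ⊕ Fin r) (Unit ⊕ Fin r) Afi, τ = lowU Y * upV cc :=
    ⟨_, rfl⟩
  obtain ⟨τ', hτ'⟩ : ∃ τ' : Matrix (Unit ⊕ Fin r) (Unit ⊕ Fin r) Afi,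
    τ' = upV (-cc) * lowU (-Y) := ⟨_, rfl⟩
  have hττ : τ * τ' = 1 := by
    rw [hτ, hτ', Matrix.mul_assoc, ← Matrix.mul_assoc (upV cc), upV_mul, add_neg_cancel, upV_zero,
      Matrix.one_mul, lowU_mul, add_neg_cancel, lowU_zero]
  have hττ' : τ' * τ = 1 := mul_eq_one_comm.mp hττ
  obtain ⟨aX, haX⟩ : ∃ aX : Fin r → Afi[X], aX = fun j => X * C (a j) := ⟨_, rfl⟩
  obtain ⟨h, hh⟩ : ∃ h : Matrix (Unit ⊕ Fin r) (Unit ⊕ Fin r) Afi[X],
    h = τ.map C * (fromBlocks 1 0 0 PP * mid aX (mp C cc')) * τ'.map C := ⟨_, rfl⟩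
  have hmap : ∀ M : Matrix (Unit ⊕ Fin r) (Unit ⊕ Fin r) Afi, ∀ x : Afi,
      (M.map C).map (evalRingHom x) = M := by
    intro M x
    ext a b
    simp
  have hmapm : ∀ (M N : Matrix (Unit ⊕ Fin r) (Unit ⊕ Fin r) Afi[X]) (x : Afi),
      (M * N).map (evalRingHom x) = M.map (evalRingHom x) * N.map (evalRingHom x) := by
    intro M N x
    exact Matrix.map_mul
  have hev : ∀ x : Afi, h.map (evalRingHom x) =
      τ * (fromBlocks 1 0 0 (PP.map (evalRingHom x)) * mid (x • a) cc') * τ' := by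
    intro x
    rw [hh, hmapm, hmapm, hmapm, hmap, hmap, map_diag, map_mid]
    congr 4
    · funext j
      simp only [mp, haX, coe_evalRingHom, eval_mul, eval_X, eval_C, Pi.smul_apply, smul_eq_mul]
    · funext j
      simp [mp]
  have hdot : mp C cc' ⬝ᵥ aX = 0 := by
    have : aX = (X : Afi[X]) • mp (C : Afi →+* Afi[X]) a := by
      funext j
      simp [haX, mp]
    rw [this, dotProduct_smul, mp_dot, h4]
    simp
  have hhdet : IsUnit h.det := by
    rw [hh, det_mul, det_mul, det_mul, det_fromBlocks_zero₁₂, det_one, one_mul]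
    have hmul : (τ.map C).det * (τ'.map C : Matrix _ _ Afi[X]).det = 1 := by
      rw [← det_mul, ← Matrix.map_mul, hττ]
      have : ((1 : Matrix (Unit ⊕ Fin r) (Unit ⊕ Fin r) Afi).map C : Matrix _ _ Afi[X]) = 1 := by
        ext a b
        by_cases hab : a = b <;> simp [Matrix.one_apply, hab]
      rw [this, det_one]
    have hu1 : IsUnit (τ.map C : Matrix _ _ Afi[X]).det := IsUnit.of_mul_eq_one _ hmul
    have hu2 : IsUnit (τ'.map C : Matrix _ _ Afi[X]).det :=
      IsUnit.of_mul_eq_one _ (by rw [mul_comm]; exact hmul)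
    exact (hu1.mul (hPPdet.mul (det_mid _ _ hdot))).mul hu2
  have hrow1 : vecMul (row V₀ cc) τ = row 1 0 := by
    rw [hτ, ← vecMul_vecMul, row_lowU, row_upV, h1]
    refine row_ext (by ring) ?_
    rw [sub_sub_cancel, one_smul, sub_self]
  have hrow2 : vecMul (row 1 0) τ' = row V₀ cc := by
    rw [← hrow1, vecMul_vecMul, hττ, vecMul_one]
  apply hA4 A (Localization.Away f) (Localization.Away i) Afi f i hsq (Unit ⊕ Fin r) (row v₀ c)
    (row w₀ c') (fromBlocks 1 0 0 e * lowU (-q))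
    (lowU y * upV (mp (algebraMap A (Localization.Away i)) c) *
      (upV (-(mp (algebraMap A (Localization.Away i)) c')) * lowU (-y'))) h
  · rw [det_mul, det_fromBlocks_zero₁₂, det_lowU, det_one, one_mul, mul_one]
    exact hedet
  · rw [det_mul, det_mul, det_mul, det_lowU, det_lowU, det_upV, det_upV]
    simp
  · exact hhdet
  · rw [mp_row, mp_row, ← vecMul_vecMul, row_diag, hec, row_lowU]
    refine row_ext ?_ rfl
    rw [dotProduct_neg, hq]
    ring
  · rw [mp_row, mp_row, ← vecMul_vecMul, ← vecMul_vecMul, ← vecMul_vecMul, row_lowU, row_upV,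
      row_upV, row_lowU]
    rw [hy, sub_sub_cancel, one_smul, sub_self]
    refine row_ext ?_ ?_
    · rw [zero_sub, smul_neg, one_smul, neg_neg, dotProduct_neg, hy']
      ring
    · rw [zero_sub, smul_neg, one_smul, neg_neg]
  · rw [C_row, ← hV₀]
    have hC : (fun j => C (algebraMap A Afi (c j))) = mp C cc := by
      rw [hcc]
      rfl
    have hR : row (C V₀) (mp C cc) = mp C (row V₀ cc) := (mp_row _ _ _).symm
    have hR1 : row (1 : Afi[X]) (0 : Fin r → Afi[X]) = mp C (row (1 : Afi) (0 : Fin r → Afi)) := by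
      rw [mp_row]
      refine row_ext (by simp) ?_
      funext j
      simp [mp]
    rw [hC, hh, ← vecMul_vecMul, ← vecMul_vecMul, ← vecMul_vecMul, hR, ← mp_vecMul, hrow1, ← hR1,
      row_diag, zero_vecMul, mid, row_fromBlocks]
    have hlast : row (1 * (1 : Matrix Unit Unit Afi[X]) () () + (0 : Fin r → Afi[X]) ⬝ᵥ aX)
        ((fun j => 1 * (0 : Matrix Unit (Fin r) Afi[X]) () j) +
          vecMul 0 (1 - vecMulVec aX (mp C cc'))) = row 1 0 := by
      refine row_ext ?_ ?_
      · simp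
      · funext j
        simp
    rw [hlast, hR1, ← mp_vecMul, hrow2]
  · have h0 := hev 0
    rw [hPP0, zero_smul, mid_zero, fromBlocks_one, Matrix.one_mul, Matrix.mul_one, hττ] at h0
    exact h0
  · have h5 := hev 1
    rw [hPP1, one_smul] at h5
    have h6 : h.map (eval 1) = h.map (evalRingHom 1) := rfl
    rw [h6, h5, ← hφ, ← hψ]
    have hg : (lowU y * upV (mp (algebraMap A (Localization.Away i)) c) *
      (upV (-(mp (algebraMap A (Localization.Away i)) c')) * lowU (-y'))).map ψ =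
        τ * (upV (-cc') * lowU (-Y')) := by
      rw [Matrix.map_mul, Matrix.map_mul, Matrix.map_mul, map_lowU, map_lowU, map_upV, map_upV,
        hψmp, ← hcc, ← hY, ← hτ]
      have hneg : ∀ d : Fin r → Localization.Away i, mp ψ (-d) = - mp ψ d := by
        intro d
        funext j
        simp [mp]
      rw [hneg, hneg, hψmp, ← hcc', ← hY']
    have hg' : (fromBlocks 1 0 0 e * lowU (-q)).map φ = fromBlocks 1 0 0 E * lowU (-Q) := by
      rw [Matrix.map_mul, map_diag, map_lowU, ← hE]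
      have hneg : mp φ (-q) = - mp φ q := by
        funext j
        simp [mp]
      rw [hneg, ← hQ]
    rw [hg, hg']
    have h7 : τ * (fromBlocks 1 0 0 E * mid a cc') * τ' * (τ * (upV (-cc') * lowU (-Y'))) =
        τ * fromBlocks 1 0 0 E * (mid a cc' * upV (-cc')) * lowU (-Y') := by
      calc τ * (fromBlocks 1 0 0 E * mid a cc') * τ' * (τ * (upV (-cc') * lowU (-Y')))
          = τ * (fromBlocks 1 0 0 E * mid a cc') * (τ' * τ) * (upV (-cc') * lowU (-Y')) := by
            simp only [Matrix.mul_assoc]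
        _ = _ := by
            rw [hττ', Matrix.mul_one]
            simp only [Matrix.mul_assoc]
    have h8 : τ * fromBlocks 1 0 0 E =
        fromBlocks 1 0 0 E * lowU (mulVec E' Y) * upV cc' := by
      rw [hτ, Matrix.mul_assoc, upV_diag, ← Matrix.mul_assoc, lowU_diag _ _ _ hEE, hEc]
    have h9 : upV cc' * (mid a cc' * upV (-cc')) = lowU (-a) := by
      rw [← Matrix.mul_assoc, mid_conj _ _ h4, Matrix.mul_assoc, upV_mul, add_neg_cancel, upV_zero,
        Matrix.mul_one]
    rw [h7, h8]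
    calc fromBlocks 1 0 0 E * lowU (mulVec E' Y) * upV cc' * (mid a cc' * upV (-cc')) *
          lowU (-Y')
        = fromBlocks 1 0 0 E * (lowU (mulVec E' Y) * (upV cc' * (mid a cc' * upV (-cc'))) *
          lowU (-Y')) := by
          simp only [Matrix.mul_assoc]
      _ = fromBlocks 1 0 0 E * lowU (-Q) := by
          rw [h9, lowU_mul, lowU_mul, ha]
          congr 2
          abel

end Pool.Agent.Helper82.GU
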