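import Pool.Agent.Helper91.GU.StB
import Pool.Agent.Helper78.GU.Suslin2

/-!
# Project GU: module C5 (natural form of Suslin's theorem)
-/

set_option autoImplicit false

namespace Pool.Agent.Helper82.GU

open Pool.Agent.Helper91.GU

universe u

/-- the generic relation -/
noncomputable def rel (ι : Type) [Fintype ι] : MvPolynomial (ι ⊕ ι) ℤ :=
  ∑ i, MvPolynomial.X (Sum.inl i) * MvPolynomial.X (Sum.inr i) - 1

/-- evaluation at a pair of rows -/
noncomputable def ev {ι : Type} (D : Type u) [CommRing D] (v y : ι → D) :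
    MvPolynomial (ι ⊕ ι) ℤ →+* D :=
  MvPolynomial.eval₂Hom (Int.castRingHom D) (Sum.elim v y)

lemma ev_rel {ι : Type} [Fintype ι] (D : Type u) [CommRing D] (v y : ι → D)
    (h : ∑ i, v i * y i = 1) : ev D v y (rel ι) = 0 := by
  simp [ev, rel, h]

lemma ev_comp {ι : Type} (D D' : Type u) [CommRing D] [CommRing D'] (ψ : D →+* D')
    (v y : ι → D) (p : MvPolynomial (ι ⊕ ι) ℤ) :
    ψ (ev D v y p) = ev D' (fun i => ψ (v i)) (fun i => ψ (y i)) p := by
  have h : ψ.comp (ev D v y) = ev D' (fun i => ψ (v i)) (fun i => ψ (y i)) := by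
    apply MvPolynomial.ringHom_ext
    · intro r
      simp [ev]
    · intro i
      rcases i with i | i <;> simp [ev]
  rw [← h]
  rfl

/-- a matrix of determinant one whose first row is the given one with the entry at the place
`Sum.inr 0` raised to a power -/
lemma exists_mat {A : Type} [CommRing A] (s : ℕ) (v : Unit ⊕ Fin (s + 1) → A)
    (hv : Pool.Agent.Helper78.GU.Um v) :
    ∃ M : Matrix (Unit ⊕ Fin (s + 1)) (Unit ⊕ Fin (s + 1)) A, M.det = 1 ∧
      M (Sum.inl ()) =
        Function.update v (Sum.inr 0) (v (Sum.inr 0) ^ (s + 1).factorial) := by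
  have hcard : Fintype.card (Unit ⊕ Fin (s + 1)) = s + 2 := by
    simp
    try omega
  obtain ⟨M, hM, hrow⟩ := Pool.Agent.Helper78.GU.suslin_det (ι := Unit ⊕ Fin (s + 1))
    (by rw [hcard]; omega) (Sum.inr 0) v hv
  rw [hcard] at hrow
  obtain ⟨d, hd⟩ : ∃ d : Unit ⊕ Fin (s + 1) → A, d = Function.update (fun _ => 1) (Sum.inr 0) (-1) :=
    ⟨_, rfl⟩
  refine ⟨Matrix.diagonal d * M.submatrix (Equiv.swap (Sum.inl ()) (Sum.inr 0)) id, ?_, ?_⟩
  · rw [Matrix.det_mul, Matrix.det_diagonal, Matrix.det_permute, hM,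
      Equiv.Perm.sign_swap (by simp), hd, Finset.prod_update_of_mem (Finset.mem_univ _)]
    simp
  · funext j
    rw [Matrix.diagonal_mul, Matrix.submatrix_apply, Equiv.swap_apply_left, hrow, hd]
    simp

theorem hC5 : StC5.{u} := by
  intro s
  obtain ⟨U, hU⟩ : ∃ U : Ideal (MvPolynomial ((Unit ⊕ Fin (s + 1)) ⊕ (Unit ⊕ Fin (s + 1))) ℤ),
    U = Ideal.span {rel (Unit ⊕ Fin (s + 1))} := ⟨_, rfl⟩
  have hum : Pool.Agent.Helper78.GU.Um
      (fun i : Unit ⊕ Fin (s + 1) => Ideal.Quotient.mk U (MvPolynomial.X (Sum.inl i))) := by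
    refine ⟨fun i => Ideal.Quotient.mk U (MvPolynomial.X (Sum.inr i)), ?_⟩
    have h : Ideal.Quotient.mk U (rel (Unit ⊕ Fin (s + 1))) = 0 := by
      rw [Ideal.Quotient.eq_zero_iff_mem, hU]
      exact Ideal.subset_span rfl
    rw [rel, map_sub, map_one, sub_eq_zero, map_sum] at h
    rw [← h]
    refine Finset.sum_congr rfl fun i _ => ?_
    rw [map_mul, mul_comm]
  obtain ⟨M, hM, hrow⟩ := exists_mat s _ hum
  have hsur : ∀ i j, ∃ p, Ideal.Quotient.mk U p = M i j :=
    fun i j => Ideal.Quotient.mk_surjective _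
  choose p hp using hsur
  have key : ∀ (D : Type u) [CommRing D] (v y : Unit ⊕ Fin (s + 1) → D), ∑ i, v i * y i = 1 →
      ∃ θ : (MvPolynomial ((Unit ⊕ Fin (s + 1)) ⊕ (Unit ⊕ Fin (s + 1))) ℤ) ⧸ U →+* D,
        ∀ q, θ (Ideal.Quotient.mk U q) = ev D v y q := by
    intro D _ v y h
    refine ⟨Ideal.Quotient.lift U (ev D v y) ?_, fun q => Ideal.Quotient.lift_mk _ _ _⟩
    intro a ha
    rw [hU] at ha
    obtain ⟨c, rfl⟩ := Ideal.mem_span_singleton.mp ha
    rw [map_mul, ev_rel D v y h, zero_mul]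
  refine ⟨fun D _ w b h a' z => (Matrix.of p).map
    (ev D (row w (Fin.cons b h : Fin (s + 1) → D)) (row a' z)), ?_, ?_⟩
  · intro D _ w b h a' z hrel
    have hrel' : ∑ i, (row w (Fin.cons b h : Fin (s + 1) → D)) i * (row a' z) i = 1 := by
      rw [Fintype.sum_sum_type]
      simpa [row, dotProduct] using hrel
    obtain ⟨θ, hθ⟩ := key D _ _ hrel'
    have hmat : (Matrix.of p).map
        (ev D (row w (Fin.cons b h : Fin (s + 1) → D)) (row a' z)) = M.map θ := by
      ext i j
      rw [Matrix.map_apply, Matrix.map_apply, Matrix.of_apply, ← hθ, hp]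
    beta_reduce
    constructor
    · rw [hmat]
      have : (M.map θ).det = θ M.det := by
        rw [RingHom.map_det]
        rfl
      rw [this, hM, map_one]
    · rw [hmat]
      funext j
      rw [Matrix.map_apply, hrow]
      rcases j with j | j
      · rw [Function.update_of_ne (by simp), hθ]
        simp [ev, row]
      · by_cases hj : j = 0
        · subst hj
          rw [Function.update_self, map_pow, hθ]
          simp [ev, row]
        · obtain ⟨k, rfl⟩ := Fin.exists_succ_eq.mpr hj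
          rw [Function.update_of_ne (by simp), hθ]
          simp [ev, row]
  · intro D D' _ _ ψ w b h a' z
    beta_reduce
    ext i j
    rw [Matrix.map_apply, Matrix.map_apply, Matrix.map_apply, Matrix.of_apply, ev_comp]
    congr 2
    · funext i
      rcases i with i | i
      · rfl
      · refine Fin.cases ?_ (fun k => ?_) i
        · simp [row]
        · simp [row, mp]
    · funext i
      rcases i with i | i <;> simp [row, mp]

end Pool.Agent.Helper82.GU
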