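import Pool.Agent.Helper96.GU.St

/-!
Project GU (MP_2c90c1_al), module TOP: the number of the beginnings of the top arcs.
-/

set_option autoImplicit false

namespace Pool.Agent.Helper82.GU

open Pool.Agent.Helper96.UT hiding StTOP TopV TopE tht Bd VC EC
open Pool.Agent.Helper96.GU

theorem etaPer_TOP {α : Type} {Z : Cyc α} (η : Stk Z) (i q : ℤ) : η.η (i + q * Z.n) = η.η i := by
  induction q with
  | zero => simp
  | succ q ih =>
    rw [← ih, ← η.per (i + q * Z.n)]
    congr 1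
    ring
  | pred q ih =>
    rw [← ih, ← η.per (i + (-q - 1) * Z.n)]
    congr 1
    ring

theorem cDvd_TOP {α : Type} {Z : Cyc α} {i j : ℤ} (h : (Z.n : ℤ) ∣ i - j) : Z.c i = Z.c j := by
  obtain ⟨q, hq⟩ := h
  have : i = j + q * Z.n := by linarith
  rw [this, Z.per_mul]

theorem natEq_TOP {n i j : ℕ} (hi : i < n) (hj : j < n) (h : (n : ℤ) ∣ (i : ℤ) - j) : i = j := by
  have h1 : (i : ℤ) % n = (j : ℤ) % n :=
    Int.emod_eq_emod_iff_emod_sub_eq_zero.2 (Int.emod_eq_zero_of_dvd h)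
  rw [Int.emod_eq_of_lt (by omega) (by omega), Int.emod_eq_of_lt (by omega) (by omega)] at h1
  exact_mod_cast h1

section

variable {α : Type} {Z : Cyc α} {Ω : Type} [MulAction (FreeGroup α) Ω]

/-- normalisation of a strand -/
theorem norm_TOP (η : Stk Z) (C : Finset Ω) (hC : ∀ u ∈ C, act u Z.s = u) {u : Ω} (hu : u ∈ C)
    (k : ℤ) :
    ∃ u' ∈ C, ∃ i : ℕ, i < Z.n ∧ act u' (pre Z.c (i : ℤ)) = act u (pre Z.c k) ∧
      Z.c (i : ℤ) = Z.c k ∧ η.η (i : ℤ) = η.η k ∧ η.η ((i : ℤ) + 1) = η.η (k + 1) := by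
  have hn : (0 : ℤ) < Z.n := by exact_mod_cast Z.pos
  obtain ⟨i, hi⟩ : ∃ i : ℕ, (i : ℤ) = k % Z.n := ⟨(k % Z.n).toNat, Int.toNat_of_nonneg
    (Int.emod_nonneg _ hn.ne')⟩
  have hlt : (i : ℤ) < Z.n := by rw [hi]; exact Int.emod_lt_of_pos _ hn
  have e : k = (i : ℤ) + (k / Z.n) * Z.n := by
    rw [hi, mul_comm]; exact (Int.emod_add_mul_ediv k Z.n).symm
  refine ⟨u, hu, i, by exact_mod_cast hlt, ?_, ?_, ?_, ?_⟩
  · conv_rhs => rw [e, act_pre_per (hC u hu)]
  · conv_rhs => rw [e, Z.per_mul]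
  · conv_rhs => rw [e, etaPer_TOP]
  · have e2 : k + 1 = ((i : ℤ) + 1) + (k / Z.n) * Z.n := by linarith
    rw [e2, etaPer_TOP]

theorem topVE_TOP (η : Stk Z) (C : Finset Ω) {u : Ω} {k : ℤ} (h : TopV Z C η.η u k) :
    TopE Z C η.η u k := by
  intro u' hu' k' hk'
  rcases ed_eq hk' with ⟨h1, h2⟩ | ⟨h1, h2⟩
  · have h3 : η.η k' ≤ η.η k := h u' hu' k' h1.symm
    unfold tht
    rw [h2]
    split_ifs
    · exact h3
    · by_contra h4
      have h5 := (η.mono k k' h2).2 (not_le.1 h4)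
      exact absurd h5 (not_lt.2 h3)
  · have h3 : η.η (k' + 1) ≤ η.η k := h u' hu' (k' + 1) (by rw [← act_pre_succ, h1])
    unfold tht
    rw [h2]
    have h6 : (bar (Z.c k')).2 = !(Z.c k').2 := rfl
    rw [h6]
    cases h7 : (Z.c k').2
    · simpa using h3
    · simp only [Bool.not_true, if_true, Bool.false_eq_true, if_false]
      by_contra h4
      have h5 := (η.monobar k k' h2).2 (not_le.1 h4)
      exact absurd h5 (not_lt.2 h3)

end

open scoped Classical in
theorem tTOP : StTOP := by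
  intro α Z η Ω _ C hC
  set S := C ×ˢ Finset.range Z.n with hS
  have hV : (VC Z C).card = (S.filter fun p => TopV Z C η.η p.1 p.2).card := by
    have himg : VC Z C = (S.filter fun p => TopV Z C η.η p.1 p.2).image
        fun p => act p.1 (pre Z.c (p.2 : ℤ)) := by
      ext x
      simp only [VC, Finset.mem_image]
      constructor
      · rintro ⟨p0, hp0, rfl⟩
        obtain ⟨p, hp, hmax⟩ := Finset.exists_max_image
          (S.filter fun p => act p.1 (pre Z.c (p.2 : ℤ)) = act p0.1 (pre Z.c (p0.2 : ℤ)))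
          (fun p => η.η (p.2 : ℤ)) ⟨p0, Finset.mem_filter.2 ⟨hp0, rfl⟩⟩
        rw [Finset.mem_filter] at hp
        refine ⟨p, Finset.mem_filter.2 ⟨hp.1, ?_⟩, hp.2⟩
        intro u' hu' k' hk'
        obtain ⟨u'', hu'', i, hi, h1, h2, h3, h4⟩ := norm_TOP η C hC hu' k'
        rw [← h3]
        exact hmax (u'', i) (Finset.mem_filter.2 ⟨Finset.mem_product.2 ⟨hu'',
          Finset.mem_range.2 hi⟩, by rw [h1, hk', hp.2]⟩)
      · rintro ⟨p, hp, rfl⟩
        exact ⟨p, (Finset.mem_filter.1 hp).1, rfl⟩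
    rw [himg, Finset.card_image_of_injOn]
    intro p hp p' hp' h
    rw [Finset.mem_coe, Finset.mem_filter, hS, Finset.mem_product, Finset.mem_range] at hp hp'
    have h1 : η.η (p'.2 : ℤ) ≤ η.η (p.2 : ℤ) := hp.2 p'.1 hp'.1.1 _ h.symm
    have h2 : η.η (p.2 : ℤ) ≤ η.η (p'.2 : ℤ) := hp'.2 p.1 hp.1.1 _ h
    have h3 : p.2 = p'.2 := natEq_TOP hp.1.2 hp'.1.2 (η.inj _ _ (le_antisymm h2 h1))
    have h4 : p.1 = p'.1 := by
      have h5 : act p.1 (pre Z.c (p.2 : ℤ)) = act p'.1 (pre Z.c (p'.2 : ℤ)) := h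
      rw [h3] at h5
      exact act_inj h5
    exact Prod.ext h4 h3
  have hE : (EC Z C).card = (S.filter fun p => TopE Z C η.η p.1 p.2).card := by
    have himg : EC Z C = (S.filter fun p => TopE Z C η.η p.1 p.2).image
        fun p => ed (act p.1 (pre Z.c (p.2 : ℤ))) (Z.c (p.2 : ℤ)) := by
      ext x
      simp only [EC, Finset.mem_image]
      constructor
      · rintro ⟨p0, hp0, rfl⟩
        obtain ⟨p, hp, hmax⟩ := Finset.exists_max_image
          (S.filter fun p => ed (act p.1 (pre Z.c (p.2 : ℤ))) (Z.c (p.2 : ℤ)) =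
            ed (act p0.1 (pre Z.c (p0.2 : ℤ))) (Z.c (p0.2 : ℤ)))
          (fun p => tht Z η.η (p.2 : ℤ)) ⟨p0, Finset.mem_filter.2 ⟨hp0, rfl⟩⟩
        rw [Finset.mem_filter] at hp
        refine ⟨p, Finset.mem_filter.2 ⟨hp.1, ?_⟩, hp.2⟩
        intro u' hu' k' hk'
        obtain ⟨u'', hu'', i, hi, h1, h2, h3, h4⟩ := norm_TOP η C hC hu' k'
        have h5 : tht Z η.η k' = tht Z η.η (i : ℤ) := by
          unfold tht
          rw [h2, h3, h4]
        rw [h5]
        exact hmax (u'', i) (Finset.mem_filter.2 ⟨Finset.mem_product.2 ⟨hu'',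
          Finset.mem_range.2 hi⟩, by
            change ed (act u'' (pre Z.c (i : ℤ))) (Z.c (i : ℤ)) = _
            rw [h1, h2, hk', hp.2]⟩)
      · rintro ⟨p, hp, rfl⟩
        exact ⟨p, (Finset.mem_filter.1 hp).1, rfl⟩
    rw [himg, Finset.card_image_of_injOn]
    intro p hp p' hp' h
    rw [Finset.mem_coe, Finset.mem_filter, hS, Finset.mem_product, Finset.mem_range] at hp hp'
    have h1 : tht Z η.η (p'.2 : ℤ) ≤ tht Z η.η (p.2 : ℤ) := hp.2 p'.1 hp'.1.1 _ h.symm
    have h2 : tht Z η.η (p.2 : ℤ) ≤ tht Z η.η (p'.2 : ℤ) := hp'.2 p.1 hp.1.1 _ h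
    have h3 := le_antisymm h2 h1
    unfold tht at h3
    rcases ed_eq h with ⟨h4, h5⟩ | ⟨h4, h5⟩
    · have h6 : p.2 = p'.2 := by
        rw [h5] at h3
        by_cases h7 : (Z.c (p.2 : ℤ)).2 = true
        · rw [if_pos h7, if_pos h7] at h3
          exact natEq_TOP hp.1.2 hp'.1.2 (η.inj _ _ h3)
        · rw [if_neg h7, if_neg h7] at h3
          have h8 := η.inj _ _ h3
          rw [add_sub_add_right_eq_sub] at h8
          exact natEq_TOP hp.1.2 hp'.1.2 h8
      have h7 : p.1 = p'.1 := by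
        rw [← h6] at h4
        exact (act_inj h4).symm
      exact Prod.ext h7 h6
    · exfalso
      rw [h5] at h3
      have h6 : (bar (Z.c (p.2 : ℤ))).2 = !(Z.c (p.2 : ℤ)).2 := rfl
      rw [h6] at h3
      cases h7 : (Z.c (p.2 : ℤ)).2
      · rw [h7] at h3
        simp only [Bool.false_eq_true, if_false, Bool.not_false, if_true] at h3
        have h8 := cDvd_TOP (η.inj _ _ h3)
        exact Z.red (p.2 : ℤ) (h8.trans h5)
      · rw [h7] at h3
        simp only [if_true, Bool.not_true, Bool.false_eq_true, if_false] at h3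
        have h8 := cDvd_TOP (η.inj _ _ h3)
        apply Z.red (p'.2 : ℤ)
        rw [← h8, h5, bar_bar]
  rw [hV, hE, Bd, ← hS]
  have hsplit := Finset.card_filter_add_card_filter_not
    (s := S.filter fun p => TopE Z C η.η p.1 p.2) (fun p => TopV Z C η.η p.1 p.2)
  rw [← hsplit, Finset.filter_filter, Finset.filter_filter, add_comm]
  congr 2
  apply Finset.filter_congr
  intro p _
  constructor
  · intro h
    exact ⟨topVE_TOP η C h, h⟩
  · exact fun h => h.2

end Pool.Agent.Helper82.GU
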