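import Pool.Agent.Helper96.UT.M_ARC
import Pool.Agent.Helper82.GU.M_TOP

/-!
Project GU (MP_2c90c1_al), module SNG: a cell without beginnings of top arcs has a single vertex.
-/

set_option autoImplicit false

namespace Pool.Agent.Helper82.GU

open Pool.Agent.Helper96.UT hiding StTOP TopV TopE tht Bd VC EC
open Pool.Agent.Helper96.GU

variable {α : Type} {Z : Cyc α} {Ω : Type} [MulAction (FreeGroup α) Ω]

theorem tht_mul_SNG (η : Stk Z) (i q : ℤ) : tht Z η.η (i + q * Z.n) = tht Z η.η i := by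
  unfold tht
  rw [Z.per_mul, eta_mul_ARC]
  have : i + q * Z.n + 1 = (i + 1) + q * Z.n := by ring
  rw [this, eta_mul_ARC]

theorem topV_per_SNG (C : Finset Ω) (η : Stk Z) {u : Ω} (hu : act u Z.s = u) (i q : ℤ) :
    TopV Z C η.η u (i + q * Z.n) ↔ TopV Z C η.η u i := by
  unfold TopV
  rw [act_pre_per hu, eta_mul_ARC]

theorem topE_per_SNG (C : Finset Ω) (η : Stk Z) {u : Ω} (hu : act u Z.s = u) (i q : ℤ) :
    TopE Z C η.η u (i + q * Z.n) ↔ TopE Z C η.η u i := by
  unfold TopE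
  rw [act_pre_per hu, tht_mul_SNG, Z.per_mul]

theorem topV_succ_SNG (C : Finset Ω) (η : Stk Z) (u : Ω) (k : ℤ)
    (h : TopV Z C η.η u (k + 1)) : TopE Z C η.η u k := by
  intro u' hu' k' he
  rcases ed_eq he.symm with ⟨h1, h2⟩ | ⟨h1, h2⟩
  · have h3 : act u' (pre Z.c (k' + 1)) = act u (pre Z.c (k + 1)) := by
      rw [← act_pre_succ, ← act_pre_succ, h1, h2]
    have h4 := h u' hu' (k' + 1) h3
    have h5 := η.mono k k' h2.symm
    unfold tht
    rw [h2]
    split
    · by_contra hc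
      exact absurd (h5.1 (by omega)) (by omega)
    · exact h4
  · rw [act_pre_succ] at h1
    have h4 := h u' hu' k' h1
    have h5 := η.monobar k k' (by rw [h2, bar_bar])
    unfold tht
    rw [h2]
    rcases hb : (Z.c k).2 with _ | _
    · simpa [bar, hb] using h4
    · simp only [bar, hb, Bool.not_true, Bool.false_eq_true, if_false, if_true]
      by_contra hc
      exact absurd (h5.1 (by omega)) (by omega)

theorem exists_min_SNG (η : Stk Z) : ∃ k₀ : ℤ, ∀ k, η.η k₀ ≤ η.η k := by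
  have hn : (0 : ℤ) < Z.n := by exact_mod_cast Z.pos
  obtain ⟨i, hi, hm⟩ := Finset.exists_min_image (Finset.range Z.n) (fun i : ℕ => η.η i)
    ⟨0, Finset.mem_range.2 Z.pos⟩
  refine ⟨i, fun k => ?_⟩
  have h0 := Int.emod_nonneg k hn.ne'
  have h1 := Int.emod_lt_of_pos k hn
  have hk : ((k % Z.n).toNat : ℤ) + (k / Z.n) * Z.n = k := by
    rw [Int.toNat_of_nonneg h0]
    have := Int.mul_ediv_add_emod k Z.n
    linarith [mul_comm (k / Z.n) (Z.n : ℤ)]
  have := hm (k % Z.n).toNat (Finset.mem_range.2 (by omega))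
  rw [← hk, eta_mul_ARC]
  exact this

theorem tSNG : StSNG := by
  classical
  intro α Z η Ω _ C hC u hu hB
  have hn : (0 : ℤ) < Z.n := by exact_mod_cast Z.pos
  have hfix := hC u hu
  -- the hypothesis: `A k → T k`
  have hAT : ∀ k : ℤ, TopE Z C η.η u k → TopV Z C η.η u k := by
    intro k hk
    have h0 := Int.emod_nonneg k hn.ne'
    have h1 := Int.emod_lt_of_pos k hn
    have hk' : ((k % Z.n).toNat : ℤ) + (k / Z.n) * Z.n = k := by
      rw [Int.toNat_of_nonneg h0]
      have := Int.mul_ediv_add_emod k Z.n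
      linarith [mul_comm (k / Z.n) (Z.n : ℤ)]
    by_contra hc
    refine hB (k % Z.n).toNat (by omega) ?_
    simp only [Bd, Finset.mem_filter, Finset.mem_product, Finset.mem_range]
    refine ⟨⟨hu, by omega⟩, ?_, ?_⟩
    · rw [← topE_per_SNG C η hfix _ (k / Z.n), hk']
      exact hk
    · rw [← topV_per_SNG C η hfix _ (k / Z.n), hk']
      exact hc
  obtain ⟨m₀, hm₀⟩ := exists_max_ARC η
  have hT0 : ∀ q : ℤ, TopV Z C η.η u (m₀ + q * Z.n) := by
    intro q u' _ k' _
    rw [eta_mul_ARC]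
    exact hm₀ k'
  have hstep : ∀ k, TopV Z C η.η u (k + 1) → TopV Z C η.η u k := fun k hk =>
    hAT k (topV_succ_SNG C η u k hk)
  have hdown : ∀ (k : ℤ) (t : ℕ), TopV Z C η.η u (k + t) → TopV Z C η.η u k := by
    intro k t
    induction t with
    | zero => simp
    | succ t ih =>
      intro h
      apply ih
      apply hstep
      have e : k + ((t + 1 : ℕ) : ℤ) = k + t + 1 := by push_cast; ring
      rwa [e] at h
  have hall : ∀ k, TopV Z C η.η u k := by
    intro k
    have hk : k ≤ m₀ + (|k - m₀|) * Z.n := by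
      have h1 : k - m₀ ≤ |k - m₀| := le_abs_self _
      have h2 : 0 ≤ |k - m₀| := abs_nonneg _
      nlinarith
    obtain ⟨t, ht⟩ := Int.le.dest hk
    exact hdown k t (by rw [ht]; exact hT0 _)
  obtain ⟨k₁, hk₁⟩ := exists_min_SNG η
  refine ⟨k₁, ?_⟩
  intro u' hu' k' he
  have h1 : η.η k' ≤ η.η k₁ := hall k₁ u' hu' k' he
  have h2 : η.η k' = η.η k₁ := le_antisymm h1 (hk₁ k')
  have h3 := η.inj _ _ h2
  refine ⟨h3, ?_⟩
  obtain ⟨q, hq⟩ := h3
  have h4 : k' = k₁ + q * Z.n := by linarith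
  rw [h4, act_pre_per (hC u' hu')] at he
  exact act_inj he

end Pool.Agent.Helper82.GU
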